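import Mathlib

set_option autoImplicit false

namespace Pool.Agent.H426.HC

open Finset SimpleGraph

/-- the path `1 - 2 - 3 - ...` together with an apex `0` joined to the vertices in `B` -/
def H (B : Finset ℕ) : SimpleGraph ℕ where
  Adj x y := (x = 0 ∧ y ∈ B ∧ 1 ≤ y) ∨ (y = 0 ∧ x ∈ B ∧ 1 ≤ x) ∨
    (1 ≤ x ∧ y = x + 1) ∨ (1 ≤ y ∧ x = y + 1)
  symm := ⟨by
    intro x y h
    rcases h with h | h | h | h
    · exact Or.inr (Or.inl h)
    · exact Or.inl h
    · exact Or.inr (Or.inr (Or.inr h))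
    · exact Or.inr (Or.inr (Or.inl h))⟩
  loopless := ⟨by
    intro x h
    rcases h with h | h | h | h <;> omega⟩

lemma edge_cases {B : Finset ℕ} {e : Sym2 ℕ} (he : e ∈ (H B).edgeSet) :
    (∃ b ∈ B, 1 ≤ b ∧ e = s(0, b)) ∨ (∃ k, 1 ≤ k ∧ e = s(k, k + 1)) := by
  induction e using Sym2.ind with
  | _ x y =>
    rw [mem_edgeSet] at he
    rcases he with ⟨h1, h2, h3⟩ | ⟨h1, h2, h3⟩ | ⟨h1, h2⟩ | ⟨h1, h2⟩
    · left; exact ⟨y, h2, h3, by rw [h1]⟩
    · left; exact ⟨x, h2, h3, by rw [h1, Sym2.eq_swap]⟩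
    · right; exact ⟨x, h1, by rw [h2]⟩
    · right; exact ⟨y, h1, by rw [h2, Sym2.eq_swap]⟩

lemma parity {B : Finset ℕ} {u : ℕ} {p : (H B).Walk u u} (hp : p.IsCycle) (x : ℕ)
    (T : Finset (Sym2 ℕ)) (h1 : ∀ e ∈ p.edges, x ∈ e → e ∈ T) (h2 : ∀ e ∈ T, x ∈ e) :
    Even (∑ e ∈ T, if e ∈ p.edges then 1 else 0) := by
  have h := (hp.isTrail.even_countP_edges_iff x).2 (fun h => absurd rfl h)
  have hnd : p.edges.Nodup := hp.isTrail.edges_nodup
  have h3 : p.edges.countP (fun e => x ∈ e) = (T.filter (fun e => e ∈ p.edges)).card := by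
    rw [List.countP_eq_length_filter, ← List.toFinset_card_of_nodup (hnd.filter _)]
    congr 1
    ext e
    simp only [List.mem_toFinset, List.mem_filter, decide_eq_true_eq, mem_filter]
    constructor
    · rintro ⟨ha, hb⟩; exact ⟨h1 e ha hb, ha⟩
    · rintro ⟨ha, hb⟩; exact ⟨hb, h2 e ha⟩
  rw [h3, card_filter] at h
  exact h

lemma parity_one {B : Finset ℕ} {u : ℕ} {p : (H B).Walk u u} (hp : p.IsCycle) :
    (s(1, 2) ∈ p.edges ↔ s(0, 1) ∈ p.edges) := by
  have h := parity hp 1 {s(1, 2), s(0, 1)} (by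
    intro e he hx
    rcases edge_cases (p.edges_subset_edgeSet he) with ⟨b, _, hb, rfl⟩ | ⟨k, hk, rfl⟩
    · rw [Sym2.mem_iff] at hx
      rcases hx with hx | hx
      · omega
      · subst hx; simp
    · rw [Sym2.mem_iff] at hx
      rcases hx with hx | hx
      · subst hx; simp
      · omega) (by
    intro e he
    simp only [mem_insert, mem_singleton] at he
    rcases he with rfl | rfl <;> simp)
  rw [sum_pair (by simp)] at h
  by_cases ha : s(1, 2) ∈ p.edges <;> by_cases hb : s(0, 1) ∈ p.edges <;>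
    simp [ha, hb] at h ⊢

lemma parity_succ {B : Finset ℕ} {u : ℕ} {p : (H B).Walk u u} (hp : p.IsCycle) (k : ℕ)
    (hk : 1 ≤ k) :
    (s(k + 1, k + 2) ∈ p.edges ↔ ¬ (s(k, k + 1) ∈ p.edges ↔ s(0, k + 1) ∈ p.edges)) := by
  have h := parity hp (k + 1) {s(k + 1, k + 2), s(k, k + 1), s(0, k + 1)} (by
    intro e he hx
    rcases edge_cases (p.edges_subset_edgeSet he) with ⟨b, _, hb, rfl⟩ | ⟨j, hj, rfl⟩
    · rw [Sym2.mem_iff] at hx
      rcases hx with hx | hx
      · omega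
      · subst hx; simp
    · rw [Sym2.mem_iff] at hx
      rcases hx with hx | hx
      · subst hx; simp
      · have : j = k := by omega
        subst this; simp) (by
    intro e he
    simp only [mem_insert, mem_singleton] at he
    rcases he with rfl | rfl | rfl <;> simp)
  rw [sum_insert (by simp), sum_pair (by simp; omega)] at h
  by_cases ha : s(k + 1, k + 2) ∈ p.edges <;> by_cases hb : s(k, k + 1) ∈ p.edges <;>
    by_cases hc : s(0, k + 1) ∈ p.edges <;> simp [ha, hb, hc] at h ⊢ <;> revert h <;> decide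

/-- every cycle is determined by two elements of `B` -/
lemma cycle_structure {B : Finset ℕ} {u : ℕ} {p : (H B).Walk u u} (hp : p.IsCycle) :
    ∃ i j, i ∈ B ∧ j ∈ B ∧ i < j ∧ p.length = j - i + 2 ∧
      ∀ e, e ∈ p.edges ↔ (e = s(0, i) ∨ e = s(0, j) ∨ ∃ k, i ≤ k ∧ k < j ∧ e = s(k, k + 1)) := by
  have hsupp : 0 ∈ p.support := by
    by_contra h0
    have ha : ∀ b, s(0, b) ∉ p.edges := fun b hb => h0 (p.fst_mem_support_of_mem_edges hb)
    have he : ∀ k, s(k + 1, k + 2) ∉ p.edges := by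
      intro k
      induction k with
      | zero => intro h; exact ha 1 ((parity_one hp).1 h)
      | succ k ih =>
        intro h
        have := (parity_succ hp (k + 1) (by omega)).1 h
        exact this ⟨fun h' => absurd h' ih, fun h' => absurd h' (ha _)⟩
    have hlen := hp.three_le_length
    rw [← p.length_edges] at hlen
    obtain ⟨e, he'⟩ := List.exists_mem_of_length_pos (l := p.edges) (by omega)
    rcases edge_cases (p.edges_subset_edgeSet he') with ⟨b, _, _, rfl⟩ | ⟨k, hk, rfl⟩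
    · exact ha b he'
    · obtain ⟨m, rfl⟩ : ∃ m, k = m + 1 := ⟨k - 1, by omega⟩
      exact he m he'
  have h2 := hp.ncard_neighborSet_toSubgraph_eq_two hsupp
  rw [Set.ncard_eq_two] at h2
  obtain ⟨i, j, hij, hset⟩ := h2
  wlog hlt : i < j generalizing i j
  · exact this j i hij.symm (by rw [hset, Set.pair_comm]) (by omega)
  have hA : ∀ b, s(0, b) ∈ p.edges ↔ b = i ∨ b = j := by
    intro b
    rw [← Walk.adj_toSubgraph_iff_mem_edges]
    have : b ∈ p.toSubgraph.neighborSet 0 ↔ b ∈ ({i, j} : Set ℕ) := by rw [hset]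
    simpa [Subgraph.mem_neighborSet] using this
  have hB : ∀ b, s(0, b) ∈ p.edges → b ∈ B ∧ 1 ≤ b := by
    intro b hb
    have := p.edges_subset_edgeSet hb
    rw [mem_edgeSet] at this
    rcases this with ⟨_, h2, h3⟩ | ⟨h1, h2, h3⟩ | ⟨h1, h2⟩ | ⟨h1, h2⟩
    · exact ⟨h2, h3⟩
    · omega
    · omega
    · omega
  obtain ⟨hiB, hi1⟩ := hB i ((hA i).2 (Or.inl rfl))
  obtain ⟨hjB, hj1⟩ := hB j ((hA j).2 (Or.inr rfl))
  have hE : ∀ k, s(k + 1, k + 2) ∈ p.edges ↔ (i ≤ k + 1 ∧ k + 1 < j) := by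
    intro k
    induction k with
    | zero =>
      rw [parity_one hp, hA]
      omega
    | succ k ih =>
      rw [parity_succ hp (k + 1) (by omega), ih, hA]
      omega
  have hedges : ∀ e, e ∈ p.edges ↔
      (e = s(0, i) ∨ e = s(0, j) ∨ ∃ k, i ≤ k ∧ k < j ∧ e = s(k, k + 1)) := by
    intro e
    constructor
    · intro he
      rcases edge_cases (p.edges_subset_edgeSet he) with ⟨b, _, _, rfl⟩ | ⟨k, hk, rfl⟩
      · rcases (hA b).1 he with rfl | rfl
        · left; rfl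
        · right; left; rfl
      · obtain ⟨m, rfl⟩ : ∃ m, k = m + 1 := ⟨k - 1, by omega⟩
        have := (hE m).1 he
        right; right
        exact ⟨m + 1, this.1, this.2, rfl⟩
    · rintro (rfl | rfl | ⟨k, hk1, hk2, rfl⟩)
      · exact (hA i).2 (Or.inl rfl)
      · exact (hA j).2 (Or.inr rfl)
      · obtain ⟨m, rfl⟩ : ∃ m, k = m + 1 := ⟨k - 1, by omega⟩
        exact (hE m).2 ⟨hk1, hk2⟩
  refine ⟨i, j, hiB, hjB, hlt, ?_, hedges⟩
  have hfin : p.edges.toFinset =
      insert s(0, i) (insert s(0, j) ((Ico i j).image (fun k => s(k, k + 1)))) := by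
    ext e
    rw [List.mem_toFinset, hedges, mem_insert, mem_insert, mem_image]
    constructor
    · rintro (h | h | ⟨k, h1, h2, h3⟩)
      · exact Or.inl h
      · exact Or.inr (Or.inl h)
      · exact Or.inr (Or.inr ⟨k, mem_Ico.2 ⟨h1, h2⟩, h3.symm⟩)
    · rintro (h | h | ⟨k, h1, h2⟩)
      · exact Or.inl h
      · exact Or.inr (Or.inl h)
      · exact Or.inr (Or.inr ⟨k, (mem_Ico.1 h1).1, (mem_Ico.1 h1).2, h2.symm⟩)
  rw [← p.length_edges, ← List.toFinset_card_of_nodup hp.isTrail.edges_nodup, hfin,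
    card_insert_of_notMem, card_insert_of_notMem, card_image_of_injective, Nat.card_Ico]
  · intro a b hab
    have hab' : s(a, a + 1) = s(b, b + 1) := hab
    rw [Sym2.eq_iff] at hab'
    omega
  · rw [mem_image]
    rintro ⟨k, hk, hk2⟩
    rw [mem_Ico] at hk
    rw [Sym2.eq_iff] at hk2
    omega
  · rw [mem_insert, mem_image]
    rintro (h | ⟨k, hk, hk2⟩)
    · rw [Sym2.eq_iff] at h
      omega
    · rw [mem_Ico] at hk
      rw [Sym2.eq_iff] at hk2
      omega

/-- all positive differences of `B` are distinct -/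
def Golomb (B : Finset ℕ) : Prop :=
  ∀ a ∈ B, ∀ b ∈ B, ∀ c ∈ B, ∀ d ∈ B, a < b → c < d → b - a = d - c → a = c ∧ b = d

lemma distinct {B : Finset ℕ} (hG : Golomb B) {u v : ℕ} {p : (H B).Walk u u}
    {q : (H B).Walk v v} (hp : p.IsCycle) (hq : q.IsCycle) (h : p.length = q.length) :
    ∀ e, e ∈ p.edges ↔ e ∈ q.edges := by
  obtain ⟨i, j, hi, hj, hij, hl, he⟩ := cycle_structure hp
  obtain ⟨i', j', hi', hj', hij', hl', he'⟩ := cycle_structure hq
  obtain ⟨h1, h2⟩ := hG i hi j hj i' hi' j' hj' hij hij' (by omega)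
  subst h1; subst h2
  intro e
  rw [he, he']

end Pool.Agent.H426.HC
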