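import Mathlib
import Pool.Agent.Helper426.HC.Basic

set_option autoImplicit false

namespace Pool.Agent.H426.HC

open Finset SimpleGraph

/-- the graph on `n` vertices -/
def G (n : ℕ) (B : Finset ℕ) : SimpleGraph (Fin n) := (H B).comap Fin.val

/-- the inclusion as a homomorphism -/
def incl (n : ℕ) (B : Finset ℕ) : G n B →g H B := ⟨Fin.val, fun h => h⟩

lemma incl_inj (n : ℕ) (B : Finset ℕ) : Function.Injective (incl n B) := Fin.val_injective

lemma G_distinct {n : ℕ} {B : Finset ℕ} (hG : Golomb B) {u v : Fin n} {p : (G n B).Walk u u}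
    {q : (G n B).Walk v v} (hp : p.IsCycle) (hq : q.IsCycle) (h : p.length = q.length) :
    ∀ e, e ∈ p.edges ↔ e ∈ q.edges := by
  have hp' : (p.map (incl n B)).IsCycle :=
    (Walk.isCycle_map_iff_of_injective (incl_inj n B)).2 hp
  have hq' : (q.map (incl n B)).IsCycle :=
    (Walk.isCycle_map_iff_of_injective (incl_inj n B)).2 hq
  have hd := distinct hG hp' hq' (by rw [Walk.length_map, Walk.length_map, h])
  have hinj : Function.Injective (Sym2.map (incl n B)) := Sym2.map.injective (incl_inj n B)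
  intro e
  have := hd (Sym2.map (incl n B) e)
  rw [Walk.edges_map, Walk.edges_map, List.mem_map_of_injective hinj,
    List.mem_map_of_injective hinj] at this
  exact this

lemma path_exists {n : ℕ} {B : Finset ℕ} (hn : 3 ≤ n) (k : ℕ) (hk : 1 ≤ k) :
    ∀ hkn : k < n, ∃ p : (G n B).Walk ⟨1, by omega⟩ ⟨k, hkn⟩, p.IsPath ∧ p.length = k - 1 ∧
      ∀ x ∈ p.support, 1 ≤ x.val ∧ x.val ≤ k := by
  induction k, hk using Nat.le_induction with
  | base =>
    intro hkn
    exact ⟨Walk.nil, Walk.IsPath.nil, rfl, by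
      intro x hx
      simp only [Walk.support_nil, List.mem_singleton] at hx
      subst hx
      exact ⟨le_refl _, le_refl _⟩⟩
  | succ k hk ih =>
    intro hkn
    obtain ⟨p, hp, hl, hs⟩ := ih (by omega)
    have hadj : (G n B).Adj ⟨k, by omega⟩ ⟨k + 1, hkn⟩ := Or.inr (Or.inr (Or.inl ⟨hk, rfl⟩))
    refine ⟨p.concat hadj, hp.concat ?_ hadj, ?_, ?_⟩
    · intro h
      have := (hs _ h).2
      simp at this
    · rw [Walk.length_concat, hl]; omega
    · intro x hx
      rw [Walk.support_concat, List.mem_append, List.mem_singleton] at hx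
      rcases hx with hx | hx
      · have := hs x hx; omega
      · subst hx; simp

lemma ham {n : ℕ} {B : Finset ℕ} (hn : 3 ≤ n) (h1 : 1 ∈ B) (h2 : n - 1 ∈ B) :
    ∃ (u : Fin n) (p : (G n B).Walk u u), p.IsCycle ∧ p.length = n := by
  obtain ⟨p, hp, hl, hs⟩ := path_exists (B := B) hn (n - 1) (by omega) (by omega)
  have hadj : (G n B).Adj ⟨n - 1, by omega⟩ ⟨0, by omega⟩ :=
    Or.inr (Or.inl ⟨rfl, h2, by change 1 ≤ n - 1; omega⟩)
  have hadj0 : (G n B).Adj ⟨0, by omega⟩ ⟨1, by omega⟩ := Or.inl ⟨rfl, h1, le_refl _⟩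
  have h0 : (⟨0, by omega⟩ : Fin n) ∉ p.support := by
    intro h
    have := (hs _ h).1
    simp at this
  refine ⟨⟨0, by omega⟩, Walk.cons hadj0 (p.concat hadj), ?_, ?_⟩
  · rw [Walk.cons_isCycle_iff]
    refine ⟨hp.concat h0 hadj, ?_⟩
    intro h
    rw [Walk.edges_concat, List.concat_eq_append, List.mem_append, List.mem_singleton] at h
    rcases h with h | h
    · exact h0 (p.fst_mem_support_of_mem_edges h)
    · rw [Sym2.eq_iff] at h
      simp only [Fin.mk.injEq] at h
      omega
  · rw [Walk.length_cons, Walk.length_concat, hl]; omega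

lemma edges_lower {n : ℕ} {B : Finset ℕ} (hn : 3 ≤ n) (hB : ∀ b ∈ B, 1 ≤ b ∧ b ≤ n - 1) :
    n - 2 + B.card ≤ (G n B).edgeSet.ncard := by
  have hinj : Function.Injective (Sym2.map (Fin.val : Fin n → ℕ)) :=
    Sym2.map.injective Fin.val_injective
  have hcard : ((Ico 1 (n - 1)).image (fun k => s(k, k + 1)) ∪ B.image (fun b => s(0, b))).card =
      n - 2 + B.card := by
    rw [card_union_of_disjoint, card_image_of_injective, card_image_of_injective, Nat.card_Ico]
    · omega
    · intro a b hab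
      have hab' : s(0, a) = s(0, b) := hab
      rw [Sym2.eq_iff] at hab'
      omega
    · intro a b hab
      have hab' : s(a, a + 1) = s(b, b + 1) := hab
      rw [Sym2.eq_iff] at hab'
      omega
    · rw [Finset.disjoint_left]
      intro e he he'
      rw [mem_image] at he he'
      obtain ⟨k, hk, rfl⟩ := he
      obtain ⟨b, hb, hbk⟩ := he'
      rw [mem_Ico] at hk
      rw [Sym2.eq_iff] at hbk
      omega
  rw [← hcard, ← Set.ncard_image_of_injective _ hinj, ← Set.ncard_coe_finset]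
  apply Set.ncard_le_ncard _ (Set.toFinite _)
  intro e he
  rw [mem_coe, mem_union, mem_image, mem_image] at he
  rcases he with ⟨k, hk, rfl⟩ | ⟨b, hb, rfl⟩
  · rw [mem_Ico] at hk
    refine ⟨s(⟨k, by omega⟩, ⟨k + 1, by omega⟩), ?_, rfl⟩
    rw [mem_edgeSet]
    exact Or.inr (Or.inr (Or.inl ⟨hk.1, rfl⟩))
  · have := hB b hb
    refine ⟨s(⟨0, by omega⟩, ⟨b, by omega⟩), ?_, rfl⟩
    rw [mem_edgeSet]
    exact Or.inl ⟨rfl, hb, this.1⟩

end Pool.Agent.H426.HC
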