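import Mathlib
import Pool.Agent.Helper426.HC.Basic

set_option autoImplicit false

namespace Pool.Agent.H426.HC

open Finset

/-- the Ruzsa set: `p - 1` numbers below `(p-1) p` with distinct differences -/
lemma ruzsa {p : ℕ} (hp : p.Prime) : ∃ R : Finset ℕ, R.card = p - 1 ∧
    (∀ r ∈ R, r < (p - 1) * p) ∧ Golomb R := by
  have : Fact p.Prime := ⟨hp⟩
  obtain ⟨g, hg⟩ := IsCyclic.exists_generator (α := (ZMod p)ˣ)
  have hord : orderOf g = p - 1 := by
    rw [orderOf_eq_card_of_forall_mem_zpowers hg, Nat.card_eq_fintype_card, ZMod.card_units]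
  have hcop : Nat.Coprime (p - 1) p := by
    have := hp.one_lt
    rw [Nat.coprime_comm]
    exact (Nat.Prime.coprime_iff_not_dvd hp).2 (fun h => by
      have := Nat.le_of_dvd (by omega) h
      omega)
  let x : ℕ → ℕ := fun i => (Nat.chineseRemainder hcop i (((g ^ i : (ZMod p)ˣ) : ZMod p).val)).val
  have hx1 : ∀ i, x i ≡ i [MOD (p - 1)] := fun i =>
    (Nat.chineseRemainder hcop i (((g ^ i : (ZMod p)ˣ) : ZMod p).val)).2.1
  have hx2 : ∀ i, ((x i : ℕ) : ZMod p) = ((g ^ i : (ZMod p)ˣ) : ZMod p) := by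
    intro i
    have h := (Nat.chineseRemainder hcop i (((g ^ i : (ZMod p)ˣ) : ZMod p).val)).2.2
    have h2 : ((x i : ℕ) : ZMod p) = ((((g ^ i : (ZMod p)ˣ) : ZMod p).val : ℕ) : ZMod p) :=
      (ZMod.natCast_eq_natCast_iff _ _ _).2 h
    rw [h2, ZMod.natCast_zmod_val]
  have hlt : ∀ i, x i < (p - 1) * p := by
    intro i
    exact Nat.chineseRemainder_lt_mul hcop _ _ (by have := hp.one_lt; omega) hp.ne_zero
  have hxinj : Set.InjOn x (range (p - 1) : Set ℕ) := by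
    intro i hi j hj hij
    have hi' : i < p - 1 := by simpa using hi
    have hj' : j < p - 1 := by simpa using hj
    have : i ≡ j [MOD (p - 1)] := (hx1 i).symm.trans (by rw [hij]; exact hx1 j)
    exact Nat.ModEq.eq_of_lt_of_lt this hi' hj'
  refine ⟨(range (p - 1)).image x, by rw [card_image_of_injOn hxinj, card_range], ?_, ?_⟩
  · intro r hr
    rw [mem_image] at hr
    obtain ⟨i, _, rfl⟩ := hr
    exact hlt i
  · intro a ha b hb c hc d hd hab hcd h
    rw [mem_image] at ha hb hc hd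
    obtain ⟨i, hi, rfl⟩ := ha
    obtain ⟨j, hj, rfl⟩ := hb
    obtain ⟨k, hk, rfl⟩ := hc
    obtain ⟨l, hl, rfl⟩ := hd
    rw [mem_range] at hi hj hk hl
    have hsum : x j + x k = x l + x i := by omega
    have hmod : j + k ≡ l + i [MOD (p - 1)] :=
      ((hx1 j).add (hx1 k)).symm.trans (by rw [hsum]; exact (hx1 l).add (hx1 i))
    have hpow : g ^ (j + k) = g ^ (l + i) := by
      rw [pow_eq_pow_iff_modEq, hord]; exact hmod
    have hprod : ((g ^ j : (ZMod p)ˣ) : ZMod p) * ((g ^ k : (ZMod p)ˣ) : ZMod p) =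
        ((g ^ l : (ZMod p)ˣ) : ZMod p) * ((g ^ i : (ZMod p)ˣ) : ZMod p) := by
      rw [← Units.val_mul, ← Units.val_mul, ← pow_add, ← pow_add, hpow]
    have hadd : ((g ^ j : (ZMod p)ˣ) : ZMod p) + ((g ^ k : (ZMod p)ˣ) : ZMod p) =
        ((g ^ l : (ZMod p)ˣ) : ZMod p) + ((g ^ i : (ZMod p)ˣ) : ZMod p) := by
      rw [← hx2, ← hx2, ← hx2, ← hx2]
      exact_mod_cast congrArg (Nat.cast (R := ZMod p)) hsum
    have hzero : (((g ^ j : (ZMod p)ˣ) : ZMod p) - ((g ^ l : (ZMod p)ˣ) : ZMod p)) *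
        (((g ^ j : (ZMod p)ˣ) : ZMod p) - ((g ^ i : (ZMod p)ˣ) : ZMod p)) = 0 := by
      linear_combination (((g ^ j : (ZMod p)ˣ) : ZMod p)) * hadd - hprod
    have hginj : ∀ s t : ℕ, s < p - 1 → t < p - 1 →
        ((g ^ s : (ZMod p)ˣ) : ZMod p) = ((g ^ t : (ZMod p)ˣ) : ZMod p) → s = t := by
      intro s t hs ht hst
      have h1 : g ^ s = g ^ t := Units.ext hst
      rw [pow_eq_pow_iff_modEq, hord] at h1
      exact Nat.ModEq.eq_of_lt_of_lt h1 hs ht
    rcases mul_eq_zero.1 hzero with h0 | h0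
    · have hjl := hginj j l hj hl (sub_eq_zero.1 h0)
      subst hjl
      omega
    · have hji := hginj j i hj hi (sub_eq_zero.1 h0)
      subst hji
      omega

/-- translate the Ruzsa set so that it starts at `1` -/
lemma ruzsa_shift {p : ℕ} (hp : p.Prime) (hp3 : 3 ≤ p) : ∃ (n : ℕ) (B : Finset ℕ),
    3 ≤ n ∧ p ≤ n ∧ n ≤ (p - 1) * p + 1 ∧ (∀ b ∈ B, 1 ≤ b ∧ b ≤ n - 1) ∧ 1 ∈ B ∧ n - 1 ∈ B ∧
    Golomb B ∧ B.card = p - 1 := by
  obtain ⟨R, hcard, hlt, hG⟩ := ruzsa hp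
  have hne : R.Nonempty := by rw [← card_pos]; omega
  have hmin := R.min'_mem hne
  have hmax := R.max'_mem hne
  obtain ⟨lo, hlo⟩ : ∃ lo, lo = R.min' hne := ⟨_, rfl⟩
  obtain ⟨hi, hhi⟩ : ∃ hi, hi = R.max' hne := ⟨_, rfl⟩
  rw [← hlo] at hmin
  rw [← hhi] at hmax
  have hb : ∀ r ∈ R, lo ≤ r ∧ r ≤ hi := fun r hr =>
    ⟨hlo ▸ R.min'_le r hr, hhi ▸ R.le_max' r hr⟩
  have hinj : Set.InjOn (fun r => r - lo + 1) (R : Set ℕ) := by
    intro r hr s hs hrs
    have h1 := hb r hr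
    have h2 := hb s hs
    have h3 : r - lo + 1 = s - lo + 1 := hrs
    omega
  have hBcard : (R.image (fun r => r - lo + 1)).card = p - 1 := by
    rw [card_image_of_injOn hinj, hcard]
  have hbound : ∀ b ∈ R.image (fun r => r - lo + 1), 1 ≤ b ∧ b ≤ hi - lo + 2 - 1 := by
    intro b hb'
    rw [mem_image] at hb'
    obtain ⟨r, hr, rfl⟩ := hb'
    have := hb r hr
    omega
  have hle : p - 1 ≤ hi - lo + 1 := by
    have hsub : R.image (fun r => r - lo + 1) ⊆ Icc 1 (hi - lo + 1) := by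
      intro b hb'
      have := hbound b hb'
      rw [mem_Icc]; omega
    have := card_le_card hsub
    rw [hBcard, Nat.card_Icc] at this
    omega
  have hhilt := hlt hi hmax
  refine ⟨hi - lo + 2, R.image (fun r => r - lo + 1), by omega, by omega, by omega, hbound,
    ?_, ?_, ?_, hBcard⟩
  · rw [mem_image]; exact ⟨lo, hmin, by omega⟩
  · rw [mem_image]; exact ⟨hi, hmax, by omega⟩
  · intro a ha b hb' c hc d hd hab hcd h
    rw [mem_image] at ha hb' hc hd
    obtain ⟨a', ha', rfl⟩ := ha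
    obtain ⟨b', hb'', rfl⟩ := hb'
    obtain ⟨c', hc', rfl⟩ := hc
    obtain ⟨d', hd', rfl⟩ := hd
    have e1 := hb a' ha'
    have e2 := hb b' hb''
    have e3 := hb c' hc'
    have e4 := hb d' hd'
    obtain ⟨h1, h2⟩ := hG a' ha' b' hb'' c' hc' d' hd' (by omega) (by omega) (by omega)
    subst h1; subst h2
    exact ⟨rfl, rfl⟩

end Pool.Agent.H426.HC
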