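import Mathlib
import Pool.Agent.Helper426.HC.Basic

set_option autoImplicit false

namespace Pool.Agent.H426.HC

open Finset

/-- adding a far away element -/
lemma golomb_insert {S : Finset ℕ} (hG : Golomb S) (M t : ℕ) (hS : ∀ s ∈ S, 1 ≤ s ∧ s ≤ M)
    (ht : 2 * M ≤ t) (hM : 1 ≤ M) : Golomb (insert t S) := by
  intro a ha b hb c hc d hd hab hcd h
  rw [mem_insert] at ha hb hc hd
  rcases ha with rfl | ha
  · rcases hb with rfl | hb
    · omega
    · have := hS b hb; omega
  · have hSa := hS a ha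
    rcases hc with rfl | hc
    · rcases hd with rfl | hd
      · omega
      · have := hS d hd; omega
    · have hSc := hS c hc
      rcases hb with rfl | hb
      · rcases hd with rfl | hd
        · omega
        · have := hS d hd; omega
      · have := hS b hb
        rcases hd with rfl | hd
        · omega
        · exact hG a ha b hb c hc d hd hab hcd h

/-- the Erdos-Turan Sidon set -/
def ET (p : ℕ) : Finset ℕ := (range p).image (fun a => 2 * p * a + a ^ 2 % p + 1)

lemma ET_inj {p : ℕ} (hp : 0 < p) :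
    Set.InjOn (fun a => 2 * p * a + a ^ 2 % p + 1) (range p : Set ℕ) := by
  intro a _ b _ hab
  have hab' : 2 * p * a + a ^ 2 % p + 1 = 2 * p * b + b ^ 2 % p + 1 := hab
  have h1 := Nat.mod_lt (a ^ 2) hp
  have h2 := Nat.mod_lt (b ^ 2) hp
  rcases Nat.lt_trichotomy a b with h | h | h
  · exfalso
    have : 2 * p * (a + 1) ≤ 2 * p * b := Nat.mul_le_mul_left _ h
    have e : 2 * p * (a + 1) = 2 * p * a + 2 * p := by ring
    rw [e] at this
    omega
  · exact h
  · exfalso
    have : 2 * p * (b + 1) ≤ 2 * p * a := Nat.mul_le_mul_left _ h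
    have e : 2 * p * (b + 1) = 2 * p * b + 2 * p := by ring
    rw [e] at this
    omega

lemma ET_card {p : ℕ} (hp : 0 < p) : (ET p).card = p := by
  unfold ET
  rw [card_image_of_injOn (ET_inj hp), card_range]

lemma ET_bound {p : ℕ} (hp : 0 < p) : ∀ s ∈ ET p, 1 ≤ s ∧ s ≤ 2 * p ^ 2 := by
  intro s hs
  unfold ET at hs
  rw [mem_image] at hs
  obtain ⟨a, ha, rfl⟩ := hs
  rw [mem_range] at ha
  have h1 := Nat.mod_lt (a ^ 2) hp
  refine ⟨by omega, ?_⟩
  have : 2 * p * (a + 1) ≤ 2 * p * p := Nat.mul_le_mul_left _ ha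
  have e : 2 * p * (a + 1) = 2 * p * a + 2 * p := by ring
  have e2 : 2 * p ^ 2 = 2 * p * p := by ring
  rw [e] at this
  rw [e2]
  beta_reduce
  omega

lemma ET_one {p : ℕ} (hp : 0 < p) : 1 ∈ ET p := by
  unfold ET
  rw [mem_image]
  exact ⟨0, mem_range.2 hp, by simp⟩

lemma ET_golomb {p : ℕ} (hp : p.Prime) (hp2 : p ≠ 2) : Golomb (ET p) := by
  have : Fact p.Prime := ⟨hp⟩
  intro x hx y hy z hz w hw hxy hzw h
  unfold ET at hx hy hz hw
  rw [mem_image] at hx hy hz hw
  obtain ⟨a, ha, rfl⟩ := hx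
  obtain ⟨b, hb, rfl⟩ := hy
  obtain ⟨c, hc, rfl⟩ := hz
  obtain ⟨d, hd, rfl⟩ := hw
  rw [mem_range] at ha hb hc hd
  beta_reduce at h hxy hzw ⊢
  have hpos := hp.pos
  have h1 := Nat.mod_lt (a ^ 2) hpos
  have h2 := Nat.mod_lt (b ^ 2) hpos
  have h3 := Nat.mod_lt (c ^ 2) hpos
  have h4 := Nat.mod_lt (d ^ 2) hpos
  have hsum : 2 * p * (b + c) + (b ^ 2 % p + c ^ 2 % p) =
      2 * p * (d + a) + (d ^ 2 % p + a ^ 2 % p) := by
    have e1 : 2 * p * (b + c) = 2 * p * b + 2 * p * c := by ring
    have e2 : 2 * p * (d + a) = 2 * p * d + 2 * p * a := by ring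
    rw [e1, e2]
    omega
  have hbc : b + c = d + a := by
    rcases Nat.lt_trichotomy (b + c) (d + a) with h | h | h
    · exfalso
      have : 2 * p * (b + c + 1) ≤ 2 * p * (d + a) := Nat.mul_le_mul_left _ h
      have e : 2 * p * (b + c + 1) = 2 * p * (b + c) + 2 * p := by ring
      rw [e] at this
      omega
    · exact h
    · exfalso
      have : 2 * p * (d + a + 1) ≤ 2 * p * (b + c) := Nat.mul_le_mul_left _ h
      have e : 2 * p * (d + a + 1) = 2 * p * (d + a) + 2 * p := by ring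
      rw [e] at this
      omega
  have hr : b ^ 2 % p + c ^ 2 % p = d ^ 2 % p + a ^ 2 % p := by
    rw [hbc] at hsum
    omega
  have hz1 : (b : ZMod p) + c = d + a := by exact_mod_cast congrArg (Nat.cast (R := ZMod p)) hbc
  have hz2 : (b : ZMod p) ^ 2 + (c : ZMod p) ^ 2 = (d : ZMod p) ^ 2 + (a : ZMod p) ^ 2 := by
    have := congrArg (Nat.cast (R := ZMod p)) hr
    push_cast at this
    simpa using this
  have hab : a ≠ b := by
    rintro rfl
    omega
  have hne : (b : ZMod p) - a ≠ 0 := by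
    intro h0
    apply hab
    have : (b : ZMod p) = a := sub_eq_zero.1 h0
    rw [ZMod.natCast_eq_natCast_iff'] at this
    rw [Nat.mod_eq_of_lt hb, Nat.mod_eq_of_lt ha] at this
    exact this.symm
  have h2ne : (2 : ZMod p) ≠ 0 := by
    intro h0
    have : ((2 : ℕ) : ZMod p) = 0 := by exact_mod_cast h0
    rw [ZMod.natCast_eq_zero_iff] at this
    have := Nat.le_of_dvd (by norm_num) this
    have := hp.two_le
    omega
  have hprod : ((b : ZMod p) - a) * (2 * ((a : ZMod p) - c)) = 0 := by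
    have hd' : (d : ZMod p) = b + c - a := by rw [hz1]; ring
    rw [hd'] at hz2
    linear_combination hz2
  have hac : (a : ZMod p) = c := by
    rcases mul_eq_zero.1 hprod with h | h
    · exact absurd h hne
    · rcases mul_eq_zero.1 h with h | h
      · exact absurd h h2ne
      · exact sub_eq_zero.1 h
  rw [ZMod.natCast_eq_natCast_iff', Nat.mod_eq_of_lt ha, Nat.mod_eq_of_lt hc] at hac
  subst hac
  have : b = d := by omega
  subst this
  exact ⟨rfl, rfl⟩

end Pool.Agent.H426.HC
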